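import Pool.Agent.R910.Dom.Geo

/-!
# MP_361a6f_ag: the standard conjecture of Hodge type descends along dominant morphisms

Let `f : Y → X` be a dominant morphism (of any relative dimension) of smooth projective varieties over
an algebraically closed field of any characteristic, `D` an ample divisor on `X`, `E` a relatively ample
divisor on `Y`, and `2 i ≤ dim X`. In `ℓ`-adic cohomology the decomposition theorem and the relative hard
Lefschetz theorem hold for `f`, `D` and `E` (`PerverseDecomposition`).

**Theorem.** Suppose that for arbitrarily small rational numbers `t > 0` the conjecture `A` of Lefschetz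
type and the conjecture of Hodge type hold for `Y` and the divisor `f^* D + t ^ 2 E` in all codimensions
`j ≤ i`. Then the conjecture `A` and the conjecture of Hodge type hold for `X` and `D` in all
codimensions `j ≤ i`.

So, with `i` the integral part of `dim X / 2`: if the Lefschetz standard conjecture holds for `Y` and the
conjecture of Hodge type holds for `Y` and all its ample divisors (only the codimensions up to `dim X / 2` are
needed), then the conjecture of Hodge type holds for `X` and all its ample divisors, and homological and
numerical equivalence agree on `X`. For finite morphisms `f` this is trivial (`f^* D` is ample). In general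
`f^* D` is only nef, and the forms for `f^* D + t ^ 2 E` degenerate for `t → 0`: they have many more
negative squares than the form on the cycles coming from `X`, so nothing can be said by continuity alone.

Proof. Let `x` be an algebraic class on `X`, primitive for `D`. For the small `t` given by the hypothesis let
`y_t` be the primitive component of `f^* x` for the divisor `L_t = f^* D + t ^ 2 E`. By the conjecture `A` it is an
algebraic class, so `(-1) ^ j tr (y_t y_t L_t ^ (m - 2 j)) ≥ 0`, `m = dim Y`. If we multiply the contribution
of the perverse cohomology sheaf `R_p` of `f` to `H(Y)` by `t ^ p`, then the operators `L_t` become a polynomial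
family, whose value at `t = 0` satisfies the hard Lefschetz theorem, by the relative hard Lefschetz theorem. In
this family the primitive component of `f^* x` tends to `f^* x`, because `E ^ (r + 1) f^* x`, `r = m - dim X`, has no
component in the largest possible perverse degree. So the rational numbers
`t ^ (-2 r) tr (y_t y_t L_t ^ (m - 2 j))` are the values of a rational function with coefficients in the
coefficient field, whose value at `0` is a positive multiple of `tr (x x D ^ (n - 2 j))`. Applying a
`ℚ`-linear map to the coefficients gives the sign of this number. The conjecture `A` for `X`, and that the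
form has no radical, follow from the equality of homological and numerical equivalence on `Y` in the codimensions
`j` and `m - j`, `j ≤ i`.
-/

open CategoryTheory AlgebraicGeometry

universe u v

namespace Pool.Agent.Results.MP_361a6f_ag.DominatedVarieties

open Pool.Agent.H914 Pool.Agent.H447 Pool.Agent.W498.Dom Pool.Agent.R910.Dom

/-- **The conjectures A and of Hodge type descend along dominant morphisms.** -/
theorem result {k : Type u} [Field k] {𝒱 : VarClass k} {ops : CycleOps 𝒱}
    (W : WeilCohomology.{u, v} ops) {Y X : 𝒱.Obj} (f : Y ⟶ X) (hf : IsDominant ops f)
    (D : X.Cycles) (hD : X.IsCyc 1 D) (hHL : HardLefschetz W X D)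
    (hpos : 0 < X.V.degCycle (divPow ops D X.dim X.V.fundCycle))
    (E : Y.Cycles) (hE : Y.IsCyc 1 E) (Q : PerverseDecomposition W f D E)
    (i : ℕ) (hi : 2 * i ≤ X.dim)
    (h : ∀ ε : ℚ, 0 < ε → ∃ t : ℚ, 0 < t ∧ t < ε ∧
      HoldsUpTo W Y (ops.pull f D + t ^ 2 • E) i) :
    HoldsUpTo W X D i := by
  have h1 : (1 : W.H X) ≠ 0 := by
    intro h0
    have e1 : W.cl X (divPow ops D X.dim X.V.fundCycle) = 0 := by
      rw [cl_divPow, W.cl_fund, h0, map_zero]
    have e2 := W.tr_cl (X := X) (z := divPow ops D X.dim X.V.fundCycle) (by
      have := divPow_mem (ops := ops) hD X.dim X.V.fundCycle_mem
      rwa [zero_add] at this)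
    rw [e1, map_zero] at e2
    have e3 : X.V.degCycle (divPow ops D X.dim X.V.fundCycle) = 0 := by exact_mod_cast e2.symm
    exact hpos.ne' e3
  exact descent Q hD hE hHL hf h1 hpos hi h

end Pool.Agent.Results.MP_361a6f_ag.DominatedVarieties
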