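import Pool.Agent.R910.Num.Weak

/-!
# MP_361a6f_ag: the Hodge index theorem in the middle implies hard Lefschetz for numerical classes

Here we consider the numerical form of the conjecture of Hodge type, in which primitive and nonzero are
understood modulo numerical equivalence (`NumHodgeTypeIn`). No conjecture of Lefschetz type, and no relation
between homological and numerical equivalence is assumed. Let `N ^ j (X)` be the group of cycles of codimension
`j` with rational coefficients modulo numerical equivalence.

**Theorem.** Let `k` be an uncountable algebraically closed field (or any algebraically closed field, and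
`i ≤ 2`). Suppose that every smooth projective variety `X` over `k` of even dimension `2 j`, `1 ≤ j ≤ i`, has
*one* ample divisor `D` such that `(-1) ^ j (z · z) > 0` for all `z ≠ 0` in `N ^ j (X)` with `D · z = 0`. Then,
for all smooth projective `X` over `k` and all `j ≤ i` with `2 j ≤ n = dim X`:

* for any ample divisors `D_1, …, D_{n - 2 j}` the product with them is an isomorphism
  `N ^ j (X) → N ^ (n - j) (X)` (for `D_1 = ⋯ = D_{n - 2 j}`: the hard Lefschetz theorem for numerical
  equivalence, the numerical form of the Lefschetz standard conjecture `A`);
* for any ample divisors `D_0, …, D_{n - 2 j}` and all `z ≠ 0` in `N ^ j (X)` with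
  `D_0 ⋯ D_{n - 2 j} z = 0`, the sign of `z · z · D_1 ⋯ D_{n - 2 j}` is `(-1) ^ j` (for
  `D_0 = ⋯ = D_{n - 2 j}`: the numerical form of the conjecture of Hodge type);
* if `2 j + 2 ≤ n` and `j < i`, then for *every* smooth ample divisor `Z` on `X` the restriction
  `N ^ j (X) → N ^ j (Z)` is an isomorphism (the weak Lefschetz theorem for numerical equivalence);
* in particular the inequality of the problem, `(-1) ^ j tr (x x ξ ^ (n - 2 j)) > 0`, holds for the classes `x` in
  `C ^ j_Pr (X)` of all cycles which are not numerically equivalent to zero, and for all polarizations `ξ`.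

The Lean statement is for a set `𝒮` of varieties and sets `Amp X` of divisors which behave like the sets of all ample
divisors (`IsNumAmpleSystem`). The second part of that definition says: if `2 j < n`, if the cycle `z` of
codimension `j` on `X` is not numerically trivial, and `D` is ample, then `z` is not numerically trivial on some
smooth divisor `Z` in the class of a multiple of `D`. This is a theorem: by Kleiman (smoothing of cycles) there is a
smooth subvariety `T` of `X` of dimension `j` with `z · T ≠ 0`, and by Altman and Kleiman there are such `Z`
which contain `T`. In the Lean statement the hypothesis for `2 j < n` is: the conjecture for one polarization, or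
the existence of one divisor `Z` on `X` for which the weak Lefschetz theorem holds for `N ^ (j - 1)`
(`HasLefschetzSection`). This is clear for `j = 1`, a theorem of Grothendieck for `j = 2`, and for uncountable
`k` it holds for very general `Z` (every family of cycles on the members of a pencil comes from a cycle on its
total space).

Proof. Induction on `dim X`. *Hard Lefschetz from the Hodge index theorem*: if `D_1 ⋯ D_{n - 2 j} z = 0`,
`z ≠ 0`, choose `Z` in the class of a multiple of `D_1` such that `z` is not zero on `Z`. There it is primitive,
so `(-1) ^ j (z · z · D_1 ⋯ D_{n - 2 j}) > 0` by induction, a contradiction. We need this also for real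
coefficients, where `D_1` is a combination of ample divisors with positive real coefficients: take the sum.
*The Hodge index theorem from hard Lefschetz*: for one polarization it is given, or follows from the weak
Lefschetz theorem; if the polarizations move in the real ample cone, all forms stay nondegenerate by hard
Lefschetz, so the signatures do not change. *Weak Lefschetz for all smooth divisors*: for `w` in `N ^ j (Z)` there
is, by hard Lefschetz, a `u` in `N ^ j (X)` such that `f_* (w - f ^* u)` is primitive; the Hodge-Riemann relations
for this class on `X` and for `w - f ^* u` on `Z` have opposite signs, so `w = f ^* u`.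
-/

open CategoryTheory AlgebraicGeometry

universe u v

namespace Pool.Agent.Results.MP_361a6f_ag.NumericalHodgeIndex

open Pool.Agent.H914 Pool.Agent.H447 Pool.Agent.R910.Mix Pool.Agent.R910.Num

/-- **The Hodge index theorem for one polarization in the middle codimension implies the hard and the
weak Lefschetz theorem and the (mixed) Hodge-Riemann relations for numerical equivalence.** -/
theorem result {k : Type u} [Field k] {𝒱 : VarClass k} {ops : CycleOps 𝒱}
    (W : WeilCohomology.{u, v} ops) (𝒮 : Set 𝒱.Obj) (Amp : ∀ X : 𝒱.Obj, Set X.Cycles) (i : ℕ)
    (hS : IsNumAmpleSystem ops 𝒮 Amp i)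
    (h : ∀ X ∈ 𝒮, ∀ j, 1 ≤ j → j ≤ i → 2 * j ≤ X.dim →
      (∃ D ∈ Amp X, NumHodgeTypeIn ops X D j) ∨
      (2 * j < X.dim ∧ HasLefschetzSection ops 𝒮 Amp X (j - 1))) :
    (∀ X ∈ 𝒮, ∀ j ≤ i, 2 * j ≤ X.dim →
      MixedNumLefschetz ops X (Amp X) j ∧ MixedNumHodgeRiemann ops X (Amp X) j ∧
      ∀ D ∈ Amp X, NumHodgeTypeIn ops X D j ∧
        ∀ z, X.IsCyc j z → W.cl X (divPow ops D (X.dim - 2 * j + 1) z) = 0 →
          ¬ NumZero ops X j z →
          0 < (-1 : ℚ) ^ j * X.V.degCycle (ops.mul z (divPow ops D (X.dim - 2 * j) z))) ∧
    ∀ X ∈ 𝒮, ∀ Z ∈ 𝒮, ∀ (f : Z ⟶ X), ∀ D ∈ Amp X, IsNumSection ops Amp f D →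
      SelfIntersection ops f D →
      ∀ j, j + 1 ≤ i → 2 * (j + 1) ≤ X.dim → NumWeakLefschetz ops f j := by
  refine ⟨fun X hX j hj hj2 => ?_, fun X hX Z hZ f D hD hf hself j hj hj2 =>
    weak_lefschetz W hS h X hX Z hZ f D hD hf hself hj hj2⟩
  obtain ⟨h1, h2⟩ := numerical W hS h X hX j hj hj2
  exact ⟨h1, h2, fun D hD => ⟨h2.hodge hD, fun z hz h0 hne =>
    (h2.hodge hD).primitive (hS.isCyc X hX D hD) hj2 hz h0 hne⟩⟩

end Pool.Agent.Results.MP_361a6f_ag.NumericalHodgeIndex
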