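import Pool.Agent.R910.Mix.One

/-!
# MP_361a6f_ag: one polarization on each variety suffices

Let `k` be an algebraically closed field, let `W` be a Weil cohomology with the hard and the weak Lefschetz
theorem (for example `ℓ`-adic cohomology), and let `𝒮` be a set of smooth projective varieties over `k` which is
stable under passing to smooth ample divisors of its members (for example the set of all of them); let `Amp X` be
the set of all ample divisors on `X` (`IsAmpleSystem`).

**Theorem.** Suppose that every `X` in `𝒮` has *one* ample divisor `D_X` for which the conjecture `A` of
Lefschetz type holds in the codimensions `j ≤ i`, and, if `dim X = 2 j` with `1 ≤ j ≤ i`, the conjecture of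
Hodge type holds in the middle codimension `j`. Then, for every `X` in `𝒮` and every `j ≤ i` with
`2 j ≤ n = dim X`:

* the conjectures `A` and of Hodge type hold for `X` and *all* ample divisors on `X`, in codimension `j`;
* for any ample divisors `D_1, …, D_{n - 2 j}` on `X` the product with `D_1 ⋯ D_{n - 2 j}` is a bijection of the
  algebraic classes of codimension `j` onto those of codimension `n - j`;
* for any ample divisors `D_0, …, D_{n - 2 j}` on `X`, the form
  `(-1) ^ j tr (x y D_1 ⋯ D_{n - 2 j})` is positive definite on the algebraic classes `x` of codimension `j` with
  `D_0 D_1 ⋯ D_{n - 2 j} x = 0` (the mixed Hodge-Riemann relations);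
* homological and numerical equivalence coincide in the codimensions `j` and `n - j`.

The conjecture of Hodge type for `X` is a statement about a fixed projective embedding. As far as I know, it
was not known that (granting the conjecture `A` or the equality of homological and numerical equivalence) it is
independent of the embedding. The usual argument, that the signature of the form `tr (x y D ^ (n - 2 j))` does not change when `D`
moves in the ample cone, breaks down, because the form must be nondegenerate for all *real* ample classes
`D`, to which the hard Lefschetz theorem of Deligne does not apply.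

Proof. Induction on `dim X`. Let `N` be the ring of algebraic classes with real coefficients. On `X` the pairing
of `N ^ j` with `N ^ (n - j)` is nondegenerate, if we know the conjectures `A` and of Hodge type for `D_X`; for
`2 j < n` the latter follows from the relations for a smooth divisor `Z` on `X` in the class of a multiple of `D_X`
and for the restriction of `D_X` to it, which we know by induction for all polarizations of `Z`. Let `D_1, …` be
real positive combinations of ample divisors and `D_1 ⋯ D_{n - 2 j} x = 0`, `x ≠ 0`. If `D_1` is the sum of the
`c_a H_a` with `H_a` ample and `c_a > 0`, and `Z_a` is a smooth divisor in the class of a multiple of `H_a`, then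
the restriction of `x` to `Z_a` is not zero, and primitive for the restrictions of `D_1` and `D_2, …` to `Z_a`, so
`(-1) ^ j tr (x x H_a D_2 ⋯ D_{n - 2 j}) > 0` by induction; taking the sum we get a contradiction. Hence the forms
`tr (x y D_1 ⋯ D_{n - 2 j})` are nondegenerate on `N ^ j` for all real ample classes `D_1, …`, and similarly on
`N ^ (j - 1)`. Move all the divisors simultaneously to `D_X` along a segment: by continuity the orthogonal
complement of `D_0 N ^ (j - 1)` stays positive definite.
-/

open CategoryTheory AlgebraicGeometry

universe u v

namespace Pool.Agent.Results.MP_361a6f_ag.OnePolarization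

open Pool.Agent.H914 Pool.Agent.H447 Pool.Agent.R910.Dom Pool.Agent.R910.Mix

/-- **One polarization on each variety suffices** for the conjectures A and of Hodge type, and implies
the mixed Hodge-Riemann relations. -/
theorem result {k : Type u} [Field k] {𝒱 : VarClass k} {ops : CycleOps 𝒱}
    (W : WeilCohomology.{u, v} ops) (𝒮 : Set 𝒱.Obj) (Amp : ∀ X : 𝒱.Obj, Set X.Cycles)
    (hS : IsAmpleSystem W 𝒮 Amp) (i : ℕ)
    (h : ∀ X ∈ 𝒮, ∃ D ∈ Amp X, (∀ j ≤ i, 2 * j ≤ X.dim → LefschetzAIn W X D j) ∧
      ∀ j, 1 ≤ j → j ≤ i → X.dim = 2 * j → HodgeTypeIn W X D j) :
    ∀ X ∈ 𝒮, ∀ j ≤ i, 2 * j ≤ X.dim →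
      (∀ D ∈ Amp X, LefschetzAIn W X D j ∧ HodgeTypeIn W X D j) ∧
      MixedLefschetz W X (Amp X) j ∧ MixedHodgeRiemann W X (Amp X) j ∧
      HomEqNumIn W X j ∧ HomEqNumIn W X (X.dim - j) :=
  one_polarization hS h

end Pool.Agent.Results.MP_361a6f_ag.OnePolarization
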