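import Pool.Agent.R910.Sgn.Conv

/-!
# MP_361a6f_ag: a zero-half law for the standard conjecture of Hodge type

Let `P` be a polarized variety satisfying the hard Lefschetz theorem and the Lefschetz standard
conjecture (for example an abelian variety), and let `b` be the sum of its Betti numbers.

1. The standard conjecture of Hodge type holds for **all** powers of `P`, in all codimensions, if
and only if for some `c > 1/2` there are **infinitely many** `m` such that the number of positive
squares of the Hodge-Riemann form on the space of all algebraic classes of `P^m` is at least `c`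
times the dimension of this space.

2. For a polarized variety `R` and `n ≤ dim R / 2` let `p_n` and `q_n` be the numbers of positive
and of negative squares of the form of the conjecture on the primitive algebraic classes of
codimension `n`. For every `r ≥ 1`: either the form is nonnegative on all primitive algebraic
classes on `P^r`, or for **all** `Q` satisfying the hard Lefschetz theorem and the Lefschetz
standard conjecture, the signs on the products `P^m × Q` are equidistributed exponentially fast:
`∑ |p_n - q_n| ≤ C θ^m ∑ (p_n + q_n)` for all `m`, for every `θ > (1 - 2 / b^r)^(1/r)`, with `C`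
depending on `Q` and `θ`.
-/

open CategoryTheory AlgebraicGeometry

universe u v

namespace Pool.Agent.Results.MP_361a6f_ag.ZeroHalfLaw

open Pool.Agent.H914 Pool.Agent.H281R3.HT Pool.Agent.R910.Sgn

/-- **The zero-half law for the standard conjecture of Hodge type.** -/
theorem result {k : Type u} [Field k] {𝒱 : VarClass k} {ops : CycleOps 𝒱}
    (W : WeilCohomology.{u, v} ops) (P : Polarized 𝒱) (hP : IsLefschetz W P)
    (hdeg : PositiveDegree ops P) :
    ((∀ m, HodgeType W (power ops P m).X (power ops P m).D) ↔ ¬ AtMostHalf W P) ∧
      ∀ r : ℕ, HodgeNonneg W (power ops P r) ∨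
        ∀ Q : Polarized 𝒱, IsLefschetz W Q → ∀ θ : ℝ, 0 < θ →
          1 - 2 / (totalBetti W P : ℝ) ^ (r + 1) < θ ^ (r + 1) → Equidistributed W P Q θ := by
  have hG : HasGq W P := HasGq.of hP.1 hP.2.1 hP.2.2
  refine ⟨main3 P hG (posDeg_of hP.1 hdeg), fun r => ?_⟩
  rcases main (W := W) P hG (posDeg_of hP.1 hdeg) r with h | h
  · exact Or.inl h
  · exact Or.inr fun Q hQ => h Q (HasGq.of hQ.1 hQ.2.1 hQ.2.2)

end Pool.Agent.Results.MP_361a6f_ag.ZeroHalfLaw
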